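import Pool.Agent.Helper56.RZ.GoalsD
import Pool.Agent.Helper62.RZ.G2

/-!
# Project RZ, packet GA2: `C^r` smallness of the perturbation, uniformly in the centre (helper28)
-/

set_option autoImplicit false

open Set Filter Topology MeasureTheory

open scoped ContDiff

namespace Pool.Agent.Helper28.RZ

open Pool.Agent.Helper56.RZ Pool.Agent.Helper62.RZ

/-- restriction to an affine subspace does not increase the norms of the derivatives -/
theorem iter_incl {Z Z' F : Type*} [NormedAddCommGroup Z] [NormedSpace ℝ Z]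
    [NormedAddCommGroup Z'] [NormedSpace ℝ Z'] [NormedAddCommGroup F] [NormedSpace ℝ F]
    (g : Z' → F) (hg : ContDiff ℝ ∞ g) (i : Z →L[ℝ] Z') (hi : ‖i‖ ≤ 1) (a : Z') (k : ℕ) (z : Z) :
    ‖iteratedFDeriv ℝ k (fun z => g (a + i z)) z‖ ≤ ‖iteratedFDeriv ℝ k g (a + i z)‖ := by
  have hg' : ContDiff ℝ ∞ (fun w => g (a + w)) := hg.comp (contDiff_const.add contDiff_id)
  have h := i.iteratedFDeriv_comp_right hg' z (i := k) (by exact_mod_cast le_top)
  rw [iteratedFDeriv_comp_add_left] at h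
  have hz : (fun w => g (a + w)) ∘ i = fun z => g (a + i z) := rfl
  rw [hz] at h
  rw [h]
  refine (ContinuousMultilinearMap.norm_compContinuousLinearMap_le _ _).trans ?_
  have h1 : ∏ _j : Fin k, ‖i‖ ≤ 1 := Finset.prod_le_one (fun _ _ => norm_nonneg _) fun _ _ => hi
  exact mul_le_of_le_one_right (norm_nonneg _) h1

/-- PACKET GA2 -/
theorem ga2 : StmtTA → StmtF1 → StmtGA2 := by
  intro hTA hF1 N K r M c p hp d ang hang z0 hz0
  obtain ⟨-, hF⟩ := hF1 N p hp
  obtain ⟨-, -, -, -, -, -, -, cq, hcq, hq⟩ := hF d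
  obtain ⟨hH, hqH, -, hH0, hH1, -, -⟩ := hTA N p hp d ang hang
  set x0 : E K := c.ψ z0 with hx0
  have hx0W : x0 ∈ c.W := (c.mapsψ z0 hz0).2
  -- the bump functions around `x0`
  obtain ⟨a4, ha4, hW4⟩ := Metric.nhds_basis_closedBall.mem_iff.1 (c.openW.mem_nhds hx0W)
  set a : ℝ := a4 / 4 with ha
  have ha0 : 0 < a := by positivity
  let b1 : ContDiffBump x0 := ⟨a, 2 * a, ha0, by linarith⟩
  let b2 : ContDiffBump x0 := ⟨2 * a, 3 * a, by positivity, by linarith⟩
  have hb2W : Metric.closedBall x0 b2.rOut ⊆ c.W := by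
    refine (Metric.closedBall_subset_closedBall ?_).trans hW4
    change 3 * a ≤ a4
    rw [ha]
    linarith
  have hb1W : Metric.closedBall x0 b1.rOut ⊆ c.W := by
    refine (Metric.closedBall_subset_closedBall ?_).trans hW4
    change 2 * a ≤ a4
    rw [ha]
    linarith
  -- the bump function around `z0`
  have hψc : ContinuousAt c.ψ z0 :=
    (c.smoothψ.contDiffAt (c.openV.mem_nhds hz0)).continuousAt
  have hnhd : c.V ∩ c.ψ ⁻¹' (Metric.closedBall x0 a) ∈ 𝓝 z0 :=
    inter_mem (c.openV.mem_nhds hz0) (hψc.preimage_mem_nhds (Metric.closedBall_mem_nhds _ ha0))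
  obtain ⟨r2, hr2, hV2⟩ := Metric.nhds_basis_closedBall.mem_iff.1 hnhd
  set r1 : ℝ := r2 / 2 with hr1
  have hr10 : 0 < r1 := by positivity
  let b3 : ContDiffBump z0 := ⟨r1, r2, hr10, by rw [hr1]; linarith⟩
  have hr12 : Metric.closedBall z0 r1 ⊆ Metric.closedBall z0 r2 :=
    Metric.closedBall_subset_closedBall (by rw [hr1]; linarith)
  have hb3V : Metric.closedBall z0 b3.rOut ⊆ c.V := fun z hz => (hV2 hz).1
  have hVa : ∀ z ∈ Metric.closedBall z0 r1, z ∈ c.V ∧ c.ψ z ∈ Metric.closedBall x0 a :=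
    fun z hz => ⟨(hV2 (hr12 hz)).1, (hV2 (hr12 hz)).2⟩
  -- the global functions
  obtain ⟨hψt, -⟩ := bump_smul' b3 c.openV hb3V c.ψ c.smoothψ
  set ψt : E N → E K := fun z => b3 z • c.ψ z with hψtdef
  have hψt1 : ∀ z ∈ Metric.closedBall z0 r1, ψt z = c.ψ z := by
    intro z hz
    simp only [hψtdef]
    rw [b3.one_of_mem_closedBall hz, one_smul]
  obtain ⟨hφt, hφs⟩ := bump_smul' b2 c.openW hb2W (fun x => c.φ x - z0)
    (c.smoothφ.sub contDiffOn_const)
  set φt : E K → E N := fun x => b2 x • (c.φ x - z0) with hφtdef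
  have hφt1 : ∀ x ∈ Metric.closedBall x0 (2 * a), φt x = c.φ x - z0 := by
    intro z hz
    simp only [hφtdef]
    rw [b2.one_of_mem_closedBall hz, one_smul]
  let G : ℝ × ℝ × (E N × E N) → E K := fun s =>
    ψt (s.2.2.1 + s.1 • d.Ha ang s.2.1 s.2.2.2) - ψt (s.2.2.1 + s.1 • s.2.2.2)
  have hG : ContDiff ℝ ∞ G := by
    have h0 : ContDiff ℝ ∞ (fun s : ℝ × ℝ × (E N × E N) => (s.2.1, s.2.2.2)) :=
      (contDiff_fst.comp contDiff_snd).prodMk
        (contDiff_snd.comp (contDiff_snd.comp contDiff_snd))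
    have h1 : ContDiff ℝ ∞ (fun s : ℝ × ℝ × (E N × E N) => d.Ha ang s.2.1 s.2.2.2) :=
      hH.comp h0
    have h4 : ContDiff ℝ ∞ (fun s : ℝ × ℝ × (E N × E N) => s.2.2.1) :=
      contDiff_fst.comp (contDiff_snd.comp contDiff_snd)
    have h5 : ContDiff ℝ ∞ (fun s : ℝ × ℝ × (E N × E N) => s.2.2.2) :=
      contDiff_snd.comp (contDiff_snd.comp contDiff_snd)
    have h2 : ContDiff ℝ ∞ (fun s : ℝ × ℝ × (E N × E N) =>
        s.2.2.1 + s.1 • d.Ha ang s.2.1 s.2.2.2) := h4.add (contDiff_fst.smul h1)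
    have h3 : ContDiff ℝ ∞ (fun s : ℝ × ℝ × (E N × E N) => s.2.2.1 + s.1 • s.2.2.2) :=
      h4.add (contDiff_fst.smul h5)
    exact (hψt.comp h2).sub (hψt.comp h3)
  have hG1 : ∀ t y, G (0, t, y) = 0 := by
    intro t y
    simp [G]
  have hG2 : ∀ s y, G (s, 0, y) = 0 := by
    intro s y
    simp [G, hH0]
  have hGq : ∀ s t z y, 1 ≤ d.q y → G (s, t, (z, y)) = 0 := by
    intro s t z y h
    simp [G, hH1 t y h]
  have hqc : ∀ y, d.q y ≤ 1 → ‖y‖ ≤ cq := by
    intro y hy
    have h1 := (hq y).1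
    have h2 : ‖y‖ ^ 2 ≤ cq ^ 2 := by nlinarith
    exact le_of_sq_le_sq h2 (by linarith)
  -- the bounds of the partial derivatives of `G`
  have hGb : ∃ CG, 1 ≤ CG ∧ ∀ k ≤ r, ∀ (ρ t : ℝ) (z y : E N), |ρ| ≤ 1 → |t| ≤ 1 →
      z ∈ Metric.closedBall z0 (r1 / 2) →
      ‖iteratedFDeriv ℝ k (fun y => G (ρ, t, (z, y))) y‖ ≤ CG * |t| * |ρ| := by
    refine unif (fun k C => ∀ (ρ t : ℝ) (z y : E N), |ρ| ≤ 1 → |t| ≤ 1 →
      z ∈ Metric.closedBall z0 (r1 / 2) →
      ‖iteratedFDeriv ℝ k (fun y => G (ρ, t, (z, y))) y‖ ≤ C * |t| * |ρ|) ?_ ?_ r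
    · intro k C C' h h' ρ t z y h1 h2 hz
      refine (h' ρ t z y h1 h2 hz).trans ?_
      gcongr
    · intro k
      have hK : IsCompact ((Metric.closedBall (0 : ℝ) 1) ×ˢ
          ((Metric.closedBall (0 : ℝ) 1) ×ˢ ((Metric.closedBall z0 (r1 / 2)) ×ˢ
            (Metric.closedBall (0 : E N) cq)))) :=
        (isCompact_closedBall _ _).prod ((isCompact_closedBall _ _).prod
          ((isCompact_closedBall _ _).prod (isCompact_closedBall _ _)))
      obtain ⟨S, hS⟩ := hK.exists_bound_of_continuousOn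
        (hG.continuous_iteratedFDeriv (m := k + 2) (le_inf (k + 2))).continuousOn
      refine ⟨max S 0, fun ρ t z y h1 h2 hz => ?_⟩
      by_cases hy : ‖y‖ ≤ cq
      · have hmain := hadamard G hG hG1 hG2 k (max S 0) ρ t (z, y) (le_max_right _ _) (by
          intro ρ' t' h3 h4
          refine (hS (ρ', t', (z, y)) ?_).trans (le_max_left _ _)
          refine ⟨?_, ?_, ?_, ?_⟩
          · simpa using h3.trans h1
          · simpa using h4.trans h2
          · exact hz
          · simpa using hy)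
        refine le_trans ?_ hmain
        have hsm : ContDiff ℝ ∞ (fun x : E N × E N => G (ρ, t, x)) :=
          hG.comp (contDiff_const.prodMk (contDiff_const.prodMk contDiff_id))
        have h5 := iter_incl (fun x : E N × E N => G (ρ, t, x)) hsm
          (ContinuousLinearMap.inr ℝ (E N) (E N)) (ContinuousLinearMap.norm_inr_le_one ℝ _ _)
          (z, 0) k y
        simpa using h5
      · have h3 : (fun y => G (ρ, t, (z, y))) =ᶠ[𝓝 y] fun _ => (0 : E K) := by
          have ho : {y : E N | cq < ‖y‖} ∈ 𝓝 y :=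
            (isOpen_lt continuous_const continuous_norm).mem_nhds (not_le.1 hy)
          filter_upwards [ho] with z' hz'
          refine hGq _ _ _ _ ?_
          by_contra hc
          exact absurd (hqc z' (not_le.1 hc).le) (not_le.2 hz')
        have h4 := (h3.iteratedFDeriv ℝ k).eq_of_nhds
        rw [h4, iteratedFDeriv_fun_zero]
        simp only [Pi.zero_apply, norm_zero]
        positivity
  obtain ⟨CG, hCG1, hCG⟩ := hGb
  obtain ⟨D, hD1, hD⟩ := cs_bound φt hφt hφs r
  obtain ⟨B, hB1, hB⟩ := cs_bound (fun x => b1 x) b1.contDiff b1.hasCompactSupport r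
  have hcq0 : 0 < cq := by linarith
  refine ⟨2 ^ r * B * (r.factorial * CG * D ^ r), min 1 (r1 / 2 / cq), r1 / 2, ?_, ?_,
    min_le_left _ _, by positivity, ?_⟩
  · have h1 : (1 : ℝ) ≤ 2 ^ r := one_le_pow₀ (by norm_num)
    have h2 : (1 : ℝ) ≤ r.factorial := by
      have := Nat.factorial_pos r
      exact_mod_cast this
    have h3 : (1 : ℝ) ≤ D ^ r := one_le_pow₀ hD1
    have h4 : (1 : ℝ) ≤ 2 ^ r * B := one_le_mul_of_one_le_of_one_le h1 hB1
    have h5 : (1 : ℝ) ≤ r.factorial * CG := one_le_mul_of_one_le_of_one_le h2 hCG1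
    have h6 : (1 : ℝ) ≤ r.factorial * CG * D ^ r := one_le_mul_of_one_le_of_one_le h5 h3
    exact one_le_mul_of_one_le_of_one_le h4 h6
  · exact lt_min one_pos (by positivity)
  intro zc hzc ρ t hρ hρ0 ht
  have hρ1 : ρ ≤ 1 := hρ0.trans (min_le_left _ _)
  have hρr : ρ * cq ≤ r1 / 2 := by
    have := hρ0.trans (min_le_right _ _)
    rwa [le_div_iff₀ hcq0] at this
  have hball : ∀ y, d.q y ≤ 1 → zc + ρ • y ∈ Metric.closedBall z0 r1 := by
    intro y hy
    rw [Metric.mem_closedBall, dist_eq_norm] at hzc ⊢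
    have h1 : zc + ρ • y - z0 = (zc - z0) + ρ • y := by abel
    rw [h1]
    refine (norm_add_le _ _).trans ?_
    rw [norm_smul, Real.norm_of_nonneg hρ.le]
    have h2 := (mul_le_mul_of_nonneg_left (hqc y hy) hρ.le).trans hρr
    linarith
  refine ⟨fun y hy => (hVa _ (hball y hy)).1, ?_⟩
  let f : E K → E N := fun x => ρ⁻¹ • φt x
  have hf : ContDiff ℝ ∞ f := hφt.const_smul ρ⁻¹
  let g : E N → E K := fun y => G (ρ, t, (zc, y + ρ⁻¹ • (z0 - zc)))
  have hg : ContDiff ℝ ∞ g := hG.comp (contDiff_const.prodMk (contDiff_const.prodMk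
    (contDiff_const.prodMk (contDiff_id.add contDiff_const))))
  let w : E K → E K := fun x => b1 x • (g ∘ f) x
  refine ⟨w, b1.contDiff.smul (hg.comp hf), ?_, ?_⟩
  · intro x hx
    by_cases hxW : x ∈ c.W
    · have hxV := c.mapsφ x ⟨hx, hxW⟩
      have hxr := c.right x ⟨hx, hxW⟩
      have hM1 : hMa c d ang zc ρ t x = c.ψ (d.loca ang zc ρ t (c.φ x)) := by
        unfold hMa
        rw [if_pos hxW]
      set y : E N := ρ⁻¹ • (c.φ x - zc) with hy
      have hzy : zc + ρ • y = c.φ x := by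
        rw [hy, smul_smul, mul_inv_cancel₀ hρ.ne', one_smul]
        abel
      have hloc : d.loca ang zc ρ t (c.φ x) = zc + ρ • d.Ha ang t y := rfl
      rw [hM1, hloc]
      by_cases hqy : d.q y ≤ 1
      · have hb := hball y hqy
        have hb' := hball (d.Ha ang t y) (by rw [hqH]; exact hqy)
        rw [hzy] at hb
        have hxa : x ∈ Metric.closedBall x0 a := by
          have := (hVa _ hb).2
          rwa [hxr] at this
        have hx2a : x ∈ Metric.closedBall x0 (2 * a) :=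
          Metric.closedBall_subset_closedBall (by linarith) hxa
        have hb1x : b1 x = 1 := b1.one_of_mem_closedBall hxa
        have hfx : f x + ρ⁻¹ • (z0 - zc) = y := by
          change ρ⁻¹ • φt x + ρ⁻¹ • (z0 - zc) = y
          rw [hφt1 x hx2a, hy, ← smul_add]
          congr 1
          abel
        change _ = x + b1 x • G (ρ, t, (zc, f x + ρ⁻¹ • (z0 - zc)))
        rw [hb1x, one_smul, hfx]
        change _ = x + (ψt (zc + ρ • d.Ha ang t y) - ψt (zc + ρ • y))
        rw [hψt1 _ hb', hzy, hψt1 _ hb, hxr]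
        abel
      · have hH1' := hH1 t y (not_le.1 hqy).le
        rw [hH1', hzy, hxr]
        change _ = x + b1 x • G (ρ, t, (zc, f x + ρ⁻¹ • (z0 - zc)))
        by_cases hb : b1 x = 0
        · rw [hb]
          simp
        · have hx2a : x ∈ Metric.closedBall x0 (2 * a) := by
            have h1 : x ∈ Function.support b1 := hb
            rw [b1.support_eq] at h1
            exact Metric.ball_subset_closedBall h1
          have hfx : f x + ρ⁻¹ • (z0 - zc) = y := by
            change ρ⁻¹ • φt x + ρ⁻¹ • (z0 - zc) = y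
            rw [hφt1 x hx2a, hy, ← smul_add]
            congr 1
            abel
          rw [hfx, hGq ρ t zc y (not_le.1 hqy).le]
          simp
    · have hM1 : hMa c d ang zc ρ t x = x := by
        unfold hMa
        rw [if_neg hxW]
      have hb : b1 x = 0 := by
        by_contra hb
        have h1 : x ∈ Function.support b1 := hb
        rw [b1.support_eq] at h1
        exact hxW (hb1W (Metric.ball_subset_closedBall h1))
      rw [hM1]
      change _ = x + b1 x • g (f x)
      rw [hb]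
      simp
  · intro k hk x
    have hρi : 1 ≤ ρ⁻¹ := (one_le_inv₀ hρ).2 hρ1
    have hD' : 1 ≤ ρ⁻¹ * D := one_le_mul_of_one_le_of_one_le hρi hD1
    have hcomp : ∀ j ≤ k, ‖iteratedFDeriv ℝ j (g ∘ f) x‖
        ≤ r.factorial * (CG * |t| * ρ) * (D ^ r * (ρ⁻¹) ^ k) := by
      intro j hj
      have h1 : ‖iteratedFDeriv ℝ j (g ∘ f) x‖
          ≤ j.factorial * (CG * |t| * ρ) * (ρ⁻¹ * D) ^ j := by
        refine norm_iteratedFDeriv_comp_le hg hf (n := j) (by exact_mod_cast le_top) x ?_ ?_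
        · intro i hi
          have h7 := hCG i (hi.trans (hj.trans hk)) ρ t zc (f x + ρ⁻¹ • (z0 - zc))
            (by rwa [abs_of_pos hρ]) ht hzc
          rw [abs_of_pos hρ] at h7
          have h8 : iteratedFDeriv ℝ i g (f x)
              = iteratedFDeriv ℝ i (fun y => G (ρ, t, (zc, y))) (f x + ρ⁻¹ • (z0 - zc)) := by
            have h9 := iteratedFDeriv_comp_add_right (𝕜 := ℝ)
              (f := fun y => G (ρ, t, (zc, y))) i (ρ⁻¹ • (z0 - zc))
            exact h9 (f x)
          rw [h8]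
          exact h7
        · intro i hi1 hi
          have h2 : iteratedFDeriv ℝ i f x = ρ⁻¹ • iteratedFDeriv ℝ i φt x := by
            have h3 : f = ρ⁻¹ • φt := rfl
            rw [h3]
            exact iteratedFDeriv_const_smul_apply
              ((hφt.of_le (by exact_mod_cast le_top)).contDiffAt)
          rw [h2, norm_smul, Real.norm_of_nonneg (by positivity)]
          calc ρ⁻¹ * ‖iteratedFDeriv ℝ i φt x‖ ≤ ρ⁻¹ * D :=
                mul_le_mul_of_nonneg_left (hD i (hi.trans (hj.trans hk)) x) (by positivity)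
            _ ≤ (ρ⁻¹ * D) ^ i := le_self_pow₀ hD' (by omega)
      refine h1.trans ?_
      have h4 : (j.factorial : ℝ) ≤ r.factorial := by
        exact_mod_cast Nat.factorial_le (hj.trans hk)
      have h5 : (ρ⁻¹ * D) ^ j ≤ D ^ r * (ρ⁻¹) ^ k := by
        rw [mul_pow, mul_comm]
        exact mul_le_mul (pow_le_pow_right₀ hD1 (hj.trans hk)) (pow_le_pow_right₀ hρi hj)
          (by positivity) (by positivity)
      have h6 : 0 ≤ CG * |t| * ρ := by positivity
      exact mul_le_mul (mul_le_mul_of_nonneg_right h4 h6) h5 (by positivity) (by positivity)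
    have hL := norm_iteratedFDeriv_smul_le (f := fun x => b1 x) (g := g ∘ f)
      (b1.contDiff (n := ⊤)) (hg.comp hf) x (n := k) (by exact_mod_cast le_top)
    change ‖iteratedFDeriv ℝ k (fun x => b1 x • (g ∘ f) x) x‖ ≤ _
    refine hL.trans ?_
    have hA0 : 0 ≤ (r.factorial : ℝ) * (CG * |t| * ρ) * (D ^ r * (ρ⁻¹) ^ k) := by positivity
    calc ∑ i ∈ Finset.range (k + 1), (k.choose i : ℝ) * ‖iteratedFDeriv ℝ i (fun x => b1 x) x‖ *
          ‖iteratedFDeriv ℝ (k - i) (g ∘ f) x‖
        ≤ ∑ i ∈ Finset.range (k + 1), (k.choose i : ℝ) * B *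
          (r.factorial * (CG * |t| * ρ) * (D ^ r * (ρ⁻¹) ^ k)) := by
          refine Finset.sum_le_sum fun i hi => ?_
          have hi' : i ≤ k := by
            have := Finset.mem_range.1 hi
            omega
          refine mul_le_mul ?_ (hcomp (k - i) (Nat.sub_le _ _)) (norm_nonneg _) (by positivity)
          exact mul_le_mul_of_nonneg_left (hB i (hi'.trans hk) x) (by positivity)
      _ = (2 : ℝ) ^ k * B * (r.factorial * (CG * |t| * ρ) * (D ^ r * (ρ⁻¹) ^ k)) := by
          rw [← Finset.sum_mul, ← Finset.sum_mul]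
          congr 2
          have := Nat.sum_range_choose k
          exact_mod_cast this
      _ ≤ (2 : ℝ) ^ r * B * (r.factorial * (CG * |t| * ρ) * (D ^ r * (ρ⁻¹) ^ k)) := by
          have h7 : (2 : ℝ) ^ k ≤ 2 ^ r := pow_le_pow_right₀ (by norm_num) hk
          gcongr
      _ = 2 ^ r * B * (r.factorial * CG * D ^ r) * |t| * ρ * (ρ⁻¹) ^ k := by ring

end Pool.Agent.Helper28.RZ
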