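import Pool.Agent.Helper56.RZ.GoalsD

/-!
# Project RZ, packet PCN: the cone of pairs (helper28)
-/

set_option autoImplicit false

open Set Filter Topology MeasureTheory

open scoped ContDiff

namespace Pool.Agent.Helper28.RZ

open Pool.Agent.Helper56.RZ

theorem cpt_bound {K : ℕ} {M : Set (E K)} (hM : IsCompact M) (F : M → End K)
    (hF : Continuous F) : ∃ R : ℝ, 1 ≤ R ∧ ∀ x, ‖F x‖ ≤ R := by
  have : CompactSpace M := isCompact_iff_compactSpace.1 hM
  obtain ⟨R, hR⟩ := isCompact_univ.exists_bound_of_continuousOn hF.continuousOn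
  exact ⟨max 1 R, le_max_left _ _, fun x => (hR x (mem_univ _)).trans (le_max_right _ _)⟩

/-- PACKET PCN -/
theorem pcn : StmtPCN := by
  intro K M hM D S U h
  obtain ⟨RS, hRS1, hRS⟩ := cpt_bound hM S h.pair.contF
  obtain ⟨RU, hRU1, hRU⟩ := cpt_bound hM U h.pair.contG
  obtain ⟨RA, hRA1, hRA⟩ := cpt_bound hM D.A D.contA
  set R : ℝ := max RS RU with hR
  have hR1 : 1 ≤ R := hRS1.trans (le_max_left _ _)
  have hSR : ∀ x, ‖S x‖ ≤ R := fun x => (hRS x).trans (le_max_left _ _)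
  have hUR : ∀ x, ‖U x‖ ≤ R := fun x => (hRU x).trans (le_max_right _ _)
  obtain ⟨δ1, hδ1, h1⟩ := h.lin.lin (1 / (3 * R)) (by positivity)
  obtain ⟨δ2, hδ2, h2⟩ := h.lin.lin' (1 / (3 * (1 + 2 * R) * (RA + 1))) (by positivity)
  refine ⟨min δ1 (δ2 / (RA + 1)), lt_min hδ1 (by positivity), ?_⟩
  intro x y hxy hc
  set v : E K := (y : E K) - x with hv
  set v' : E K := (D.f y : E K) - D.f x with hv'
  set ρ : E K := v' - D.A x v with hρ
  have hv1 : ‖ρ‖ ≤ 1 / (3 * R) * ‖v‖ := h1 x y (hxy.trans (min_le_left _ _))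
  have hv1' : ‖ρ‖ ≤ ‖v‖ := by
    refine hv1.trans (mul_le_of_le_one_left (norm_nonneg _) ?_)
    rw [div_le_one (by positivity)]
    linarith
  have hvv : v' = D.A x v + ρ := by rw [hρ]; abel
  have hn : ‖v'‖ ≤ (RA + 1) * ‖v‖ := by
    rw [hvv]
    refine (norm_add_le _ _).trans ?_
    have h3 := (D.A x).le_opNorm v
    have h4 := mul_le_mul_of_nonneg_right (hRA x) (norm_nonneg v)
    linarith
  have hn' : ‖v'‖ ≤ δ2 := by
    have h3 : ‖v‖ ≤ δ2 / (RA + 1) := hxy.trans (min_le_right _ _)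
    rw [le_div_iff₀ (by positivity)] at h3
    linarith
  -- the component off the fibre
  have hB := h2 (D.f x) (D.f y) hn'
  rw [D.f.symm_apply_apply, D.f.symm_apply_apply] at hB
  have hTB : D.T x (D.B (D.f x) v') = D.B (D.f x) v' := by
    have h3 := D.TB (D.f x)
    rw [D.f.symm_apply_apply] at h3
    exact congrArg (fun L : End K => L v') h3
  have hTn : ∀ u, ‖D.T x u‖ ≤ 2 * R * ‖u‖ := by
    intro u
    rw [← h.pair.sum x]
    change ‖S x u + U x u‖ ≤ _
    refine (norm_add_le _ _).trans ?_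
    have h3 := (S x).le_opNorm u
    have h4 := mul_le_mul_of_nonneg_right (hSR x) (norm_nonneg u)
    have h5 := (U x).le_opNorm u
    have h6 := mul_le_mul_of_nonneg_right (hUR x) (norm_nonneg u)
    linarith
  have hoff : ‖v - D.T x v‖ ≤ 1 / 3 * ‖v‖ := by
    have h3 : v - D.T x v = (v - D.B (D.f x) v') - D.T x (v - D.B (D.f x) v') := by
      rw [(D.T x).map_sub v (D.B (D.f x) v'), hTB]
      abel
    rw [h3]
    refine (norm_sub_le _ _).trans ?_
    have h4 := hTn (v - D.B (D.f x) v')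
    have h5 : ‖v - D.B (D.f x) v'‖ ≤ 1 / (3 * (1 + 2 * R) * (RA + 1)) * ((RA + 1) * ‖v‖) :=
      hB.trans (mul_le_mul_of_nonneg_left hn (by positivity))
    have h6 : 1 / (3 * (1 + 2 * R) * (RA + 1)) * ((RA + 1) * ‖v‖)
        = 1 / (3 * (1 + 2 * R)) * ‖v‖ := by
      field_simp
    rw [h6] at h5
    have h7 : (1 + 2 * R) * (1 / (3 * (1 + 2 * R)) * ‖v‖) = 1 / 3 * ‖v‖ := by
      field_simp
    have h8 := mul_le_mul_of_nonneg_left h5 (by positivity : (0 : ℝ) ≤ 1 + 2 * R)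
    rw [h7] at h8
    linarith
  have hc3 : ‖v‖ ≤ 3 * ‖U x v‖ := by
    have h3 : v = (v - D.T x v) + (S x v + U x v) := by
      have h4 : D.T x v = S x v + U x v := by rw [← h.pair.sum x]; rfl
      rw [← h4]
      abel
    have h5 : ‖v‖ ≤ ‖v - D.T x v‖ + (‖S x v‖ + ‖U x v‖) := by
      calc ‖v‖ = ‖(v - D.T x v) + (S x v + U x v)‖ := by rw [← h3]
        _ ≤ _ := (norm_add_le _ _).trans (by gcongr; exact norm_add_le _ _)
    linarith
  -- the unstable component
  set w : E K := U x v with hw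
  have hAw : U (D.f x) (D.A x v) = D.A x w := by
    have h3 := congrArg (fun L : End K => L v) (h.pair.AG x)
    exact h3.symm
  have hAS : S (D.f x) (D.A x v) = D.A x (S x v) := by
    have h3 := congrArg (fun L : End K => L v) (h.pair.AF x)
    exact h3.symm
  have hUw : U x w = w := congrArg (fun L : End K => L v) (h.pair.GG x)
  have hSw : S x w = 0 := congrArg (fun L : End K => L v) (h.pair.FG x)
  have hTw : D.T x w = w := by
    rw [← h.pair.sum x]
    change S x w + U x w = w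
    rw [hUw, hSw, zero_add]
  have hUAw : U (D.f x) (D.A x w) = D.A x w := by
    have h3 := congrArg (fun L : End K => L w) (h.pair.AG x)
    have h4 : D.A x (U x w) = U (D.f x) (D.A x w) := h3
    rw [hUw] at h4
    exact h4.symm
  have hwB : w = (D.B (D.f x) * U (D.f x)) (D.A x w) := by
    change w = D.B (D.f x) (U (D.f x) (D.A x w))
    rw [hUAw]
    have h3 := congrArg (fun L : End K => L w) (D.BA x)
    have h4 : D.B (D.f x) (D.A x w) = D.T x w := h3
    rw [h4, hTw]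
  have hν : ‖w‖ ≤ ‖D.B (D.f x) * U (D.f x)‖ * ‖D.A x w‖ := by
    conv_lhs => rw [hwB]
    exact (D.B (D.f x) * U (D.f x)).le_opNorm _
  have hν8 : ‖w‖ ≤ 1 / 8 * ‖D.A x w‖ :=
    hν.trans (mul_le_mul_of_nonneg_right (h.e1 x) (norm_nonneg _))
  have hρw : R * ‖ρ‖ ≤ ‖w‖ := by
    have h3 : R * ‖ρ‖ ≤ R * (1 / (3 * R) * (3 * ‖w‖)) :=
      mul_le_mul_of_nonneg_left (hv1.trans (mul_le_mul_of_nonneg_left hc3 (by positivity)))
        (by positivity)
    have h4 : R * (1 / (3 * R) * (3 * ‖w‖)) = ‖w‖ := by field_simp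
    rwa [h4] at h3
  have hUv : 7 / 8 * ‖D.A x w‖ ≤ ‖U (D.f x) v'‖ := by
    have h3 : D.A x w = U (D.f x) v' - U (D.f x) ρ := by
      rw [hvv, map_add, hAw]
      abel
    have h4 : ‖D.A x w‖ ≤ ‖U (D.f x) v'‖ + ‖U (D.f x) ρ‖ := by
      conv_lhs => rw [h3]
      exact norm_sub_le _ _
    have h5 : ‖U (D.f x) ρ‖ ≤ R * ‖ρ‖ :=
      ((U (D.f x)).le_opNorm ρ).trans (mul_le_mul_of_nonneg_right (hUR _) (norm_nonneg _))
    linarith
  have hSv : ‖S (D.f x) v'‖ ≤ 1 / 4 * ‖D.A x w‖ := by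
    rw [hvv, map_add, hAS]
    refine (norm_add_le _ _).trans ?_
    have h5 : ‖S (D.f x) ρ‖ ≤ R * ‖ρ‖ :=
      ((S (D.f x)).le_opNorm ρ).trans (mul_le_mul_of_nonneg_right (hSR _) (norm_nonneg _))
    have h6 : D.A x (S x v) = (D.A x * S x) (S x v) := by
      have h7 : S x (S x v) = S x v := congrArg (fun L : End K => L v) (h.pair.FF x)
      change D.A x (S x v) = D.A x (S x (S x v))
      rw [h7]
    have h8 : ‖D.A x (S x v)‖ ≤ ‖D.A x * S x‖ * ‖w‖ := by
      rw [h6]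
      exact ((D.A x * S x).le_opNorm _).trans (mul_le_mul_of_nonneg_left hc (norm_nonneg _))
    have h9 : ‖D.A x * S x‖ * ‖w‖ ≤ 1 / 8 * ‖D.A x w‖ := by
      calc ‖D.A x * S x‖ * ‖w‖
          ≤ ‖D.A x * S x‖ * (‖D.B (D.f x) * U (D.f x)‖ * ‖D.A x w‖) :=
            mul_le_mul_of_nonneg_left hν (norm_nonneg _)
        _ = (‖D.B (D.f x) * U (D.f x)‖ * ‖D.A x * S x‖) * ‖D.A x w‖ := by ring
        _ ≤ _ := mul_le_mul_of_nonneg_right (h.e2 x) (norm_nonneg _)
    linarith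
  have hA0 := norm_nonneg (D.A x w)
  refine ⟨hc3, ?_, ?_⟩
  · linarith
  · linarith

end Pool.Agent.Helper28.RZ
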